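import Mathlib

/-!
# A second-order rational recurrence: every solution converges to the equilibrium or to the two-cycle
-/

set_option autoImplicit false

open Filter Topology Set

namespace Pool.Agent.Helper10K9.BT

/-- the parameters: `m`, `M` the two-cycle and `e` the equilibrium -/
structure Par (α A B m M e : ℝ) : Prop where
  a0 : 0 < α
  B1 : 1 < B
  A0 : 0 ≤ A
  m0 : 0 < m
  mM : m < M
  sum : m + M = 1 - A
  prod : (B - 1) * (m * M) = α
  e0 : 0 < e
  eq : (B + 1) * e ^ 2 = (1 - A) * e + α

/-- a solution, with nonnegative terms and positive denominators -/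
structure Sol (α A B : ℝ) (x : ℕ → ℝ) : Prop where
  nn : ∀ n, 0 ≤ x n
  dn : ∀ n, 0 < A + B * x (n + 1) + x n
  rc : ∀ n, x (n + 2) * (A + B * x (n + 1) + x n) = α + x n

/-- the limits of the terms of even and of odd index -/
def Lim (x : ℕ → ℝ) (a b : ℝ) : Prop :=
  Tendsto (fun k => x (2 * k)) atTop (𝓝 a) ∧ Tendsto (fun k => x (2 * k + 1)) atTop (𝓝 b)

variable {α A B m M e : ℝ}

namespace Par

lemma k1 (p : Par α A B m M e) : 1 - A < (B + 1) * e := by
  have h1 := p.eq
  have h2 := p.e0
  have h3 := p.a0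
  by_contra hc
  push Not at hc
  nlinarith [mul_le_mul_of_nonneg_right hc h2.le]

lemma me (p : Par α A B m M e) : m < e := by
  by_contra hc
  push Not at hc
  have h1 := p.k1
  have h2 := p.eq
  have h3 := p.e0
  have h4 := p.m0
  have h5 := p.mM
  have h6 := p.B1
  have h7 : (B + 1) * m ^ 2 - (1 - A) * m - α = - (B * (m * (M - m))) := by
    rw [← p.prod, ← p.sum]; ring
  have h8 : 0 < B * (m * (M - m)) := mul_pos (by linarith) (mul_pos h4 (by linarith))
  have h9 : 0 ≤ (m - e) * ((B + 1) * (m + e) - (1 - A)) :=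
    mul_nonneg (by linarith) (by nlinarith)
  nlinarith

lemma eM (p : Par α A B m M e) : e < M := by
  by_contra hc
  push Not at hc
  have h1 := p.k1
  have h2 := p.eq
  have h3 := p.e0
  have h4 := p.m0
  have h5 := p.mM
  have h6 := p.B1
  have h7 : (B + 1) * M ^ 2 - (1 - A) * M - α = B * (M * (M - m)) := by
    rw [← p.prod, ← p.sum]; ring
  have h8 : 0 < B * (M * (M - m)) := mul_pos (by linarith) (mul_pos (by linarith) (by linarith))
  have h9 : 0 ≤ (e - M) * ((B + 1) * (M + e) - (1 - A)) :=
    mul_nonneg (by linarith) (by nlinarith)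
  nlinarith

lemma e2 (p : Par α A B m M e) : 2 * e < 1 - A := by
  by_contra hc
  push Not at hc
  have h1 := p.k1
  have h2 := p.eq
  have h3 := p.e0
  have h4 := p.m0
  have h5 := p.mM
  have h6 := p.B1
  have h7 : (B + 1) * ((m + M) / 2) ^ 2 - (m + M) * ((m + M) / 2) - α =
      (B - 1) * ((M - m) ^ 2 / 4) := by
    rw [← p.prod]; ring
  have h8 : 0 < (B - 1) * ((M - m) ^ 2 / 4) :=
    mul_pos (by linarith) (by have : 0 < M - m := by linarith
                              positivity)
  have h9 : 0 ≤ (e - (m + M) / 2) * ((B + 1) * ((m + M) / 2 + e) - (1 - A)) :=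
    mul_nonneg (by have := p.sum; linarith) (by nlinarith [p.m0])
  have h10 := p.sum
  rw [← h10] at h2 h9
  nlinarith

lemma M1 (p : Par α A B m M e) : M < 1 := by
  have h1 := p.sum
  have h2 := p.m0
  have h3 := p.A0
  linarith

lemma gm (p : Par α A B m M e) : α < A + B * m := by
  have h1 : A + B * m - α = (1 - M) * (1 + (B - 1) * m) := by
    rw [← p.prod]
    have := p.sum
    have h2 : A = 1 - m - M := by linarith
    rw [h2]; ring
  have h3 : 0 < (1 - M) * (1 + (B - 1) * m) :=
    mul_pos (by have := p.M1; linarith)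
      (by have := mul_pos (sub_pos.2 p.B1) p.m0; linarith)
  linarith

lemma gB (p : Par α A B m M e) : α < A + B := by
  have h1 := p.gm
  have h2 : B * m ≤ B * 1 :=
    mul_le_mul_of_nonneg_left (by have := p.M1; have := p.mM; linarith) (by have := p.B1; linarith)
  linarith

lemma K0 (p : Par α A B m M e) : 0 < A + B * (α + 1) + m := by
  have h1 := p.A0
  have h2 := p.m0
  have h3 : 0 < B * (α + 1) := mul_pos (by have := p.B1; linarith) (by have := p.a0; linarith)
  linarith

end Par

namespace Sol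

variable {x y : ℕ → ℝ}

lemma shift (s : Sol α A B x) : Sol α A B (fun n => x (n + 1)) :=
  ⟨fun n => s.nn (n + 1), fun n => s.dn (n + 1), fun n => s.rc (n + 1)⟩

lemma shiftN (s : Sol α A B x) (N : ℕ) : Sol α A B (fun n => x (n + N)) :=
  ⟨fun n => s.nn (n + N),
    fun n => by
      have := s.dn (n + N)
      rwa [show n + N + 1 = n + 1 + N by ring] at this,
    fun n => by
      have := s.rc (n + N)
      rwa [show n + N + 1 = n + 1 + N by ring, show n + N + 2 = n + 2 + N by ring] at this⟩

lemma pos (s : Sol α A B x) (ha : 0 < α) (n : ℕ) : 0 < x (n + 2) := by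
  have h1 := s.rc n
  have h2 := s.dn n
  have h3 := s.nn n
  by_contra hc
  push Not at hc
  nlinarith [mul_nonneg h2.le (neg_nonneg.2 hc)]

lemma le1 (s : Sol α A B x) {n : ℕ} (h : α ≤ A + B * x (n + 1)) : x (n + 2) ≤ 1 := by
  have h1 := s.rc n
  have h2 := s.dn n
  by_contra hc
  push Not at hc
  nlinarith [mul_lt_mul_of_pos_right hc h2]

lemma ge1 (s : Sol α A B x) {n : ℕ} (h : A + B * x (n + 1) ≤ α) : 1 ≤ x (n + 2) := by
  have h1 := s.rc n
  have h2 := s.dn n
  by_contra hc
  push Not at hc
  nlinarith [mul_lt_mul_of_pos_right hc h2]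

lemma key (s : Sol α A B x) (t : Sol α A B y) (n : ℕ) :
    (y (n + 2) - x (n + 2)) * ((A + B * x (n + 1) + x n) * (A + B * y (n + 1) + y n)) =
      B * (α + y n) * (x (n + 1) - y (n + 1)) + (A + B * y (n + 1) - α) * (y n - x n) := by
  linear_combination (A + B * x (n + 1) + x n) * t.rc n - (A + B * y (n + 1) + y n) * s.rc n

lemma mono (s : Sol α A B x) (t : Sol α A B y) (ha : 0 < α) (hB : 0 < B) {n : ℕ}
    (h1 : x n ≤ y n) (h2 : y (n + 1) ≤ x (n + 1)) (h3 : α ≤ A + B * y (n + 1)) :
    x (n + 2) ≤ y (n + 2) := by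
  have h4 := s.key t n
  have h5 : 0 < (A + B * x (n + 1) + x n) * (A + B * y (n + 1) + y n) :=
    mul_pos (s.dn n) (t.dn n)
  have h6 : 0 ≤ B * (α + y n) * (x (n + 1) - y (n + 1)) :=
    mul_nonneg (mul_nonneg hB.le (by have := t.nn n; linarith)) (by linarith)
  have h7 : 0 ≤ (A + B * y (n + 1) - α) * (y n - x n) := mul_nonneg (by linarith) (by linarith)
  by_contra hc
  push Not at hc
  nlinarith [mul_pos (sub_pos.2 hc) h5]

end Sol

lemma lim_shift (x : ℕ → ℝ) (a b : ℝ) : Lim (fun n => x (n + 1)) a b ↔ Lim x b a := by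
  unfold Lim
  have h : Tendsto (fun k => x (2 * k + 1 + 1)) atTop (𝓝 b) ↔
      Tendsto (fun k => x (2 * k)) atTop (𝓝 b) := by
    rw [← tendsto_add_atTop_iff_nat (f := fun k => x (2 * k)) 1]
    rfl
  constructor
  · rintro ⟨h1, h2⟩
    exact ⟨h.1 h2, h1⟩
  · rintro ⟨h1, h2⟩
    exact ⟨h2, h.2 h1⟩

/-- the three possibilities -/
def Tri (m M e : ℝ) (x : ℕ → ℝ) : Prop := Lim x e e ∨ Lim x M m ∨ Lim x m M

lemma tri_shift {x : ℕ → ℝ} (h : Tri m M e (fun n => x (n + 1))) : Tri m M e x := by
  rcases h with h | h | h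
  · exact Or.inl ((lim_shift x e e).1 h)
  · exact Or.inr (Or.inr ((lim_shift x M m).1 h))
  · exact Or.inr (Or.inl ((lim_shift x m M).1 h))

lemma tri_shiftN {x : ℕ → ℝ} (N : ℕ) : Tri m M e (fun n => x (n + N)) → Tri m M e x := by
  induction N with
  | zero => exact fun h => h
  | succ N ih =>
    intro h
    apply ih
    apply tri_shift
    have : (fun n => x (n + (N + 1))) = fun n => (fun k => x (k + N)) (n + 1) := by
      funext n
      show x (n + (N + 1)) = x (n + 1 + N)
      congr 1
      ring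
    rw [this] at h
    exact h

section

variable {x : ℕ → ℝ}

lemma good_step (p : Par α A B m M e) (s : Sol α A B x) {n : ℕ} (h : α ≤ A + B * x (n + 1)) :
    α ≤ A + B * x (n + 3) := by
  have h1 := s.le1 h
  have h2 := s.rc (n + 1)
  have h3 := s.nn (n + 3)
  have h4 := s.nn (n + 1)
  have hB : 0 < B := by have := p.B1; linarith
  have hA := p.A0
  have h5 := p.gB
  rw [show n + 1 + 2 = n + 3 by ring, show n + 1 + 1 = n + 2 by ring] at h2
  by_contra hc
  push Not at hc
  have h6 : α + x (n + 1) ≤ x (n + 3) * (A + B + x (n + 1)) := by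
    rw [← h2]
    apply mul_le_mul_of_nonneg_left _ h3
    nlinarith
  have h7 : 0 < A + B + x (n + 1) := by linarith
  have h8 : B * (x (n + 3) * (A + B + x (n + 1))) < (α - A) * (A + B + x (n + 1)) := by
    have : B * (x (n + 3) * (A + B + x (n + 1))) = B * x (n + 3) * (A + B + x (n + 1)) := by ring
    rw [this]
    exact mul_lt_mul_of_pos_right (by linarith) h7
  have h9 : 0 ≤ (A + x (n + 1)) * (A + B - α) := mul_nonneg (by linarith) (by linarith)
  nlinarith [mul_le_mul_of_nonneg_left h6 hB.le]

lemma ex_good (p : Par α A B m M e) (s : Sol α A B x) : ∃ k, α ≤ A + B * x (2 * k + 1) := by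
  by_contra hc
  push Not at hc
  have hB : 0 < B := by have := p.B1; linarith
  have hA := p.A0
  have ha := p.a0
  have hm := p.m0
  have hM : 0 < M := by have := p.mM; linarith
  have hs : ∀ k, x (2 * k + 1) ≤ m := fun k => by
    have h1 := hc k
    have h2 := p.gm
    by_contra h3
    push Not at h3
    nlinarith
  have hL : ∀ k, 1 ≤ x (2 * k + 2) := fun k => s.ge1 (n := 2 * k) (hc k).le
  have hgr : ∀ k, (1 + M / (A + B * (α + 1) + m)) * x (2 * k + 3) ≤ x (2 * k + 5) := by
    intro k
    set s' := x (2 * k + 3) with hs'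
    set L' := x (2 * k + 4) with hL'
    have e1 : L' * (A + B * s' + x (2 * k + 2)) = α + x (2 * k + 2) := s.rc (2 * k + 2)
    have e2 : x (2 * k + 5) * (A + B * L' + s') = α + s' := s.rc (2 * k + 3)
    have h1 : 1 ≤ L' := hL (k + 1)
    have h2 : 1 ≤ x (2 * k + 2) := hL k
    have h3 : 0 ≤ s' := s.nn _
    have h4 : A + B * s' < α := hc (k + 1)
    have h5 : s' ≤ m := hs (k + 1)
    have h6 : L' * (A + B * s' + 1) ≤ α + 1 := by
      nlinarith [mul_nonneg (sub_nonneg.2 h1) (sub_nonneg.2 h2)]
    have h7 : 0 < A + B * s' + 1 := by nlinarith [mul_nonneg hB.le h3]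
    have h8 : B * s' * L' ≤ α := by
      have h9 : B * s' * (L' * (A + B * s' + 1)) ≤ B * s' * (α + 1) :=
        mul_le_mul_of_nonneg_left h6 (mul_nonneg hB.le h3)
      have h10 : B * s' * (α + 1) ≤ α * (A + B * s' + 1) := by
        nlinarith [mul_nonneg ha.le hA]
      by_contra h11
      push Not at h11
      nlinarith [mul_lt_mul_of_pos_right h11 h7]
    have h9 : L' ≤ α + 1 := by
      have : L' * 1 ≤ L' * (A + B * s' + 1) :=
        mul_le_mul_of_nonneg_left (by nlinarith [mul_nonneg hB.le h3]) (by linarith)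
      linarith
    have h10 : M * s' ≤ (x (2 * k + 5) - s') * (A + B * L' + s') := by
      have : M * s' ≤ (1 - A - s') * s' :=
        mul_le_mul_of_nonneg_right (by have := p.sum; linarith) h3
      nlinarith
    have h11 : 0 < A + B * L' + s' := by nlinarith [mul_pos hB (by linarith : 0 < L')]
    have h12 : 0 ≤ x (2 * k + 5) - s' := by
      by_contra h13
      push Not at h13
      nlinarith [mul_pos (neg_pos.2 h13) h11, mul_nonneg hM.le h3]
    have h13 : A + B * L' + s' ≤ A + B * (α + 1) + m := by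
      nlinarith [mul_le_mul_of_nonneg_left h9 hB.le]
    have h14 : M * s' ≤ (x (2 * k + 5) - s') * (A + B * (α + 1) + m) :=
      h10.trans (mul_le_mul_of_nonneg_left h13 h12)
    have h15 : M / (A + B * (α + 1) + m) * s' ≤ x (2 * k + 5) - s' := by
      rw [div_mul_eq_mul_div, div_le_iff₀ p.K0]
      exact h14
    linarith
  set r := 1 + M / (A + B * (α + 1) + m) with hr
  have hr1 : 1 < r := by
    have : 0 < M / (A + B * (α + 1) + m) := div_pos hM p.K0
    linarith
  have hpow : ∀ k, r ^ k * x 3 ≤ x (2 * k + 3) := by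
    intro k
    induction k with
    | zero => simp
    | succ k ih =>
      have h1 := hgr k
      calc r ^ (k + 1) * x 3 = r * (r ^ k * x 3) := by ring
        _ ≤ r * x (2 * k + 3) := mul_le_mul_of_nonneg_left ih (by linarith)
        _ ≤ x (2 * k + 5) := h1
        _ = x (2 * (k + 1) + 3) := by congr 1
  have hx3 : 0 < x 3 := s.pos ha 1
  obtain ⟨k, hk⟩ := pow_unbounded_of_one_lt (m / x 3) hr1
  have h1 := hpow k
  have h2 := hs (k + 1)
  rw [show 2 * (k + 1) + 1 = 2 * k + 3 by ring] at h2
  rw [div_lt_iff₀ hx3] at hk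
  linarith

lemma good_odd (p : Par α A B m M e) (s : Sol α A B x) :
    ∃ k, ∀ j, k ≤ j → α ≤ A + B * x (2 * j + 1) := by
  obtain ⟨k, hk⟩ := ex_good p s
  refine ⟨k, fun j hj => ?_⟩
  induction j, hj using Nat.le_induction with
  | base => exact hk
  | succ j _ ih => exact good_step p s (n := 2 * j) ih

lemma evt_good (p : Par α A B m M e) (s : Sol α A B x) : ∃ N, ∀ n, N ≤ n → α ≤ A + B * x n := by
  obtain ⟨k1, h1⟩ := good_odd p s
  obtain ⟨k2, h2⟩ := good_odd p s.shift
  refine ⟨2 * k1 + 2 * k2 + 2, fun n hn => ?_⟩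
  rcases Nat.even_or_odd' n with ⟨j, rfl | rfl⟩
  · obtain ⟨i, rfl⟩ : ∃ i, j = i + 1 := ⟨j - 1, by omega⟩
    exact h2 i (by omega)
  · exact h1 j (by omega)

lemma conv_mono {y : ℕ → ℝ} {C : ℝ} (h : ∀ k, y k ≤ y (k + 1)) (hC : ∀ k, y k ≤ C) :
    ∃ a, Tendsto y atTop (𝓝 a) :=
  ⟨_, tendsto_atTop_ciSup (monotone_nat_of_le_succ h) ⟨C, by rintro _ ⟨k, rfl⟩; exact hC k⟩⟩

lemma conv_anti {y : ℕ → ℝ} {C : ℝ} (h : ∀ k, y (k + 1) ≤ y k) (hC : ∀ k, C ≤ y k) :
    ∃ a, Tendsto y atTop (𝓝 a) :=
  ⟨_, tendsto_atTop_ciInf (antitone_nat_of_succ_le h) ⟨C, by rintro _ ⟨k, rfl⟩; exact hC k⟩⟩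

/-- the limits of a solution whose subsequences converge -/
lemma tri_of_lim (p : Par α A B m M e) (s : Sol α A B x) {a b : ℝ} (h : Lim x a b) :
    Tri m M e x := by
  have e1 : a * (A + B * b + a) = α + a := by
    have h1 : Tendsto (fun k => x (2 * (k + 1)) * (A + B * x (2 * k + 1) + x (2 * k))) atTop
        (𝓝 (a * (A + B * b + a))) :=
      ((tendsto_add_atTop_iff_nat 1).2 h.1).mul
        ((tendsto_const_nhds.add (tendsto_const_nhds.mul h.2)).add h.1)
    have h2 : Tendsto (fun k => x (2 * (k + 1)) * (A + B * x (2 * k + 1) + x (2 * k))) atTop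
        (𝓝 (α + a)) := by
      have : (fun k => x (2 * (k + 1)) * (A + B * x (2 * k + 1) + x (2 * k))) =
          fun k => α + x (2 * k) := by
        funext k
        exact s.rc (2 * k)
      rw [this]
      exact tendsto_const_nhds.add h.1
    exact tendsto_nhds_unique h1 h2
  have e2 : b * (A + B * a + b) = α + b := by
    have h1 : Tendsto (fun k => x (2 * (k + 1) + 1) * (A + B * x (2 * (k + 1)) + x (2 * k + 1)))
        atTop (𝓝 (b * (A + B * a + b))) :=
      ((tendsto_add_atTop_iff_nat (f := fun k => x (2 * k + 1)) 1).2 h.2).mul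
        ((tendsto_const_nhds.add (tendsto_const_nhds.mul
          ((tendsto_add_atTop_iff_nat (f := fun k => x (2 * k)) 1).2 h.1))).add h.2)
    have h2 : Tendsto (fun k => x (2 * (k + 1) + 1) * (A + B * x (2 * (k + 1)) + x (2 * k + 1)))
        atTop (𝓝 (α + b)) := by
      have : (fun k => x (2 * (k + 1) + 1) * (A + B * x (2 * (k + 1)) + x (2 * k + 1))) =
          fun k => α + x (2 * k + 1) := by
        funext k
        exact s.rc (2 * k + 1)
      rw [this]
      exact tendsto_const_nhds.add h.2
    exact tendsto_nhds_unique h1 h2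
  have ha : 0 ≤ a := ge_of_tendsto' h.1 fun k => s.nn _
  have hb : 0 ≤ b := ge_of_tendsto' h.2 fun k => s.nn _
  have e3 : (a - b) * (A + a + b - 1) = 0 := by linear_combination e1 - e2
  rcases mul_eq_zero.1 e3 with h1 | h1
  · have hab : a = b := by linarith
    subst hab
    have e4 : (a - e) * ((B + 1) * (a + e) - (1 - A)) = 0 := by
      linear_combination e1 - p.eq
    rcases mul_eq_zero.1 e4 with h2 | h2
    · have : a = e := by linarith
      rw [this] at h
      exact Or.inl h
    · exfalso
      have := p.k1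
      have hB : 0 < B + 1 := by have := p.B1; linarith
      nlinarith [mul_nonneg hB.le ha]
  · have hab : a + b = m + M := by have := p.sum; linarith
    have hpr : (B - 1) * (a * b) = (B - 1) * (m * M) := by
      rw [p.prod]
      have h2 : A = 1 - a - b := by linarith
      rw [h2] at e1
      linear_combination e1
    have hpr2 : a * b = m * M := mul_left_cancel₀ (by have := p.B1; linarith) hpr
    have e5 : (a - m) * (a - M) = 0 := by
      linear_combination a * hab - hpr2
    rcases mul_eq_zero.1 e5 with h2 | h2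
    · have h3 : a = m := by linarith
      have h4 : b = M := by linarith
      rw [h3, h4] at h
      exact Or.inr (Or.inr h)
    · have h3 : a = M := by linarith
      have h4 : b = m := by linarith
      rw [h3, h4] at h
      exact Or.inr (Or.inl h)

lemma tri_good (p : Par α A B m M e) (s : Sol α A B x) (hg : ∀ n, α ≤ A + B * x n) :
    Tri m M e x := by
  have hB : 0 < B := by have := p.B1; linarith
  have ha := p.a0
  have hbd : ∀ n, x n ≤ max 1 (max (x 0) (x 1)) := by
    intro n
    rcases n with _ | _ | n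
    · exact (le_max_left _ _).trans (le_max_right _ _)
    · exact (le_max_right _ _).trans (le_max_right _ _)
    · exact (s.le1 (hg (n + 1))).trans (le_max_left _ _)
  have s2 := s.shiftN 2
  have step1 : ∀ n, x n ≤ x (n + 2) → x (n + 3) ≤ x (n + 1) → x (n + 2) ≤ x (n + 4) :=
    fun n h1 h2 => s.mono s2 ha hB (n := n) h1 h2 (hg _)
  have step2 : ∀ n, x (n + 2) ≤ x n → x (n + 1) ≤ x (n + 3) → x (n + 4) ≤ x (n + 2) :=
    fun n h1 h2 => s2.mono s ha hB (n := n) h1 h2 (hg _)
  -- from one alternation everything is monotone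
  have persist : ∀ n, x n ≤ x (n + 2) → x (n + 3) ≤ x (n + 1) → Tri m M e x := by
    intro n h1 h2
    have h : ∀ k, x (2 * k + n) ≤ x (2 * k + 2 + n) ∧ x (2 * k + 3 + n) ≤ x (2 * k + 1 + n) := by
      intro k
      induction k with
      | zero =>
        refine ⟨?_, ?_⟩
        · rw [show 2 * 0 + n = n by ring, show 2 * 0 + 2 + n = n + 2 by ring]
          exact h1
        · rw [show 2 * 0 + 3 + n = n + 3 by ring, show 2 * 0 + 1 + n = n + 1 by ring]
          exact h2
      | succ k ih =>
        obtain ⟨i1, i2⟩ := ih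
        have j1 : x (2 * k + n + 2) ≤ x (2 * k + n + 4) := by
          apply step1
          · rw [show 2 * k + n + 2 = 2 * k + 2 + n by ring]; exact i1
          · rw [show 2 * k + n + 3 = 2 * k + 3 + n by ring,
              show 2 * k + n + 1 = 2 * k + 1 + n by ring]
            exact i2
        have j2 : x (2 * k + n + 1 + 4) ≤ x (2 * k + n + 1 + 2) := by
          apply step2
          · rw [show 2 * k + n + 1 + 2 = 2 * k + 3 + n by ring,
              show 2 * k + n + 1 = 2 * k + 1 + n by ring]
            exact i2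
          · rw [show 2 * k + n + 1 + 1 = 2 * k + n + 2 by ring,
              show 2 * k + n + 1 + 3 = 2 * k + n + 4 by ring]
            exact j1
        refine ⟨?_, ?_⟩
        · rw [show 2 * (k + 1) + n = 2 * k + n + 2 by ring,
            show 2 * (k + 1) + 2 + n = 2 * k + n + 4 by ring]
          exact j1
        · rw [show 2 * (k + 1) + 3 + n = 2 * k + n + 1 + 4 by ring,
            show 2 * (k + 1) + 1 + n = 2 * k + n + 1 + 2 by ring]
          exact j2
    apply tri_shiftN n
    obtain ⟨a, h3⟩ := conv_mono (y := fun k => x (2 * k + n)) (C := max 1 (max (x 0) (x 1)))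
      (fun k => (h k).1) (fun k => hbd _)
    obtain ⟨b, h4⟩ := conv_anti (y := fun k => x (2 * k + 1 + n)) (C := 0)
      (fun k => (h k).2) (fun k => s.nn _)
    exact tri_of_lim p (s.shiftN n) ⟨h3, h4⟩
  by_cases hA : ∃ n, x n ≤ x (n + 2) ∧ x (n + 3) ≤ x (n + 1)
  · obtain ⟨n, h1, h2⟩ := hA
    exact persist n h1 h2
  · push Not at hA
    by_cases hBn : ∃ n, x (n + 2) ≤ x n ∧ x (n + 1) ≤ x (n + 3)
    · obtain ⟨n, h1, h2⟩ := hBn
      exact persist (n + 1) h2 (step2 n h1 h2)
    · push Not at hBn
      rcases lt_trichotomy (x 0) (x 2) with h0 | h0 | h0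
      · have h : ∀ n, x n < x (n + 2) := by
          intro n
          induction n with
          | zero => exact h0
          | succ n ih => exact hA n ih.le
        obtain ⟨a, h3⟩ := conv_mono (y := fun k => x (2 * k)) (C := max 1 (max (x 0) (x 1)))
          (fun k => (h (2 * k)).le) (fun k => hbd _)
        obtain ⟨b, h4⟩ := conv_mono (y := fun k => x (2 * k + 1)) (C := max 1 (max (x 0) (x 1)))
          (fun k => (h (2 * k + 1)).le) (fun k => hbd _)
        exact tri_of_lim p s ⟨h3, h4⟩
      · exfalso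
        have h1 := hA 0 h0.le
        have h2 := hBn 0 h0.ge
        simp only [zero_add] at h1 h2
        linarith
      · have h : ∀ n, x (n + 2) < x n := by
          intro n
          induction n with
          | zero => exact h0
          | succ n ih => exact hBn n ih.le
        obtain ⟨a, h3⟩ := conv_anti (y := fun k => x (2 * k)) (C := 0)
          (fun k => (h (2 * k)).le) (fun k => s.nn _)
        obtain ⟨b, h4⟩ := conv_anti (y := fun k => x (2 * k + 1)) (C := 0)
          (fun k => (h (2 * k + 1)).le) (fun k => s.nn _)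
        exact tri_of_lim p s ⟨h3, h4⟩

/-- every solution converges to the equilibrium or to the two-cycle -/
theorem tri (p : Par α A B m M e) (s : Sol α A B x) : Tri m M e x := by
  obtain ⟨N, hN⟩ := evt_good p s
  exact tri_shiftN N (tri_good p (s.shiftN N) fun n => hN _ (by omega))

end

end Pool.Agent.Helper10K9.BT
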