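import Pool.Agent.Helper10K9.BT.Basic

/-!
# Comparison of solutions of the recurrence
-/

set_option autoImplicit false

open Filter Topology Set

namespace Pool.Agent.Helper10K9.BT

variable {α A B m M e : ℝ} {x y : ℕ → ℝ}

lemma Lim.unique {a b a' b' : ℝ} (h : Lim x a b) (h' : Lim x a' b') : a = a' ∧ b = b' :=
  ⟨tendsto_nhds_unique h.1 h'.1, tendsto_nhds_unique h.2 h'.2⟩

/-- the two quadrants beyond the two-cycle are exchanged -/
lemma region (p : Par α A B m M e) (s : Sol α A B x) (h0 : M ≤ x 0) (h1 : x 1 ≤ m) :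
    ∀ k, M ≤ x (2 * k) ∧ x (2 * k + 1) ≤ m := by
  have hB : 0 < B := by have := p.B1; linarith
  have hm := p.m0
  have hM : 0 < M := by have := p.mM; linarith
  have hM1 := p.M1
  have hsum := p.sum
  have hmM := p.mM
  have cM : M * (A + B * m + M) = α + M := by
    rw [← p.prod]
    have h2 : A = 1 - m - M := by linarith
    rw [h2]; ring
  have cm : m * (A + B * M + m) = α + m := by
    rw [← p.prod]
    have h2 : A = 1 - m - M := by linarith
    rw [h2]; ring
  intro k
  induction k with
  | zero => exact ⟨h0, h1⟩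
  | succ k ih =>
    obtain ⟨i1, i2⟩ := ih
    have r1 := s.rc (2 * k)
    have d1 := s.dn (2 * k)
    have r2 := s.rc (2 * k + 1)
    have d2 := s.dn (2 * k + 1)
    have n1 := s.nn (2 * k)
    have n2 := s.nn (2 * k + 1)
    rw [show 2 * k + 1 + 2 = 2 * k + 3 by ring, show 2 * k + 1 + 1 = 2 * k + 2 by ring] at r2
    rw [show 2 * k + 1 + 1 = 2 * k + 2 by ring] at d2
    have j1 : M ≤ x (2 * k + 2) := by
      by_contra hc
      push Not at hc
      have h2 := mul_lt_mul_of_pos_right hc d1
      have h3 : 0 ≤ (1 - M) * (x (2 * k) - M) := mul_nonneg (by linarith) (by linarith)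
      have h4 : 0 ≤ M * B * (m - x (2 * k + 1)) := mul_nonneg (mul_pos hM hB).le (by linarith)
      nlinarith
    have j2 : x (2 * k + 3) ≤ m := by
      by_contra hc
      push Not at hc
      have h2 := mul_lt_mul_of_pos_right hc d2
      have h3 : 0 ≤ (1 - m) * (m - x (2 * k + 1)) := mul_nonneg (by linarith) (by linarith)
      have h4 : 0 ≤ m * B * (x (2 * k + 2) - M) := mul_nonneg (mul_pos hm hB).le (by linarith)
      nlinarith
    exact ⟨j1, j2⟩

lemma region_lim (p : Par α A B m M e) (s : Sol α A B x) (h0 : M ≤ x 0) (h1 : x 1 ≤ m) :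
    Lim x M m := by
  have h := region p s h0 h1
  rcases tri p s with h2 | h2 | h2
  · exfalso
    have h3 : M ≤ e := ge_of_tendsto' h2.1 fun k => (h k).1
    have := p.eM
    linarith
  · exact h2
  · exfalso
    have h3 : M ≤ m := ge_of_tendsto' h2.1 fun k => (h k).1
    have := p.mM
    linarith

/-- if the second term is so small that the map is not monotone, then the solution goes to `M, m` -/
lemma bad (p : Par α A B m M e) (s : Sol α A B x) (h : A + B * x 1 ≤ α) : Lim x M m := by
  have h1 : 1 ≤ x 2 := s.ge1 (n := 0) h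
  have h2 : x 1 ≤ m := by
    have h3 := p.gm
    have hB : 0 < B := by have := p.B1; linarith
    by_contra h4
    push Not at h4
    nlinarith [mul_lt_mul_of_pos_left h4 hB]
  have h3 : M ≤ x 2 := by have := p.M1; linarith
  -- the shifted solution
  have s1 := s.shift
  have s2 := s1.shift
  have d1 := s.rc 1
  have h4 : x 3 ≤ m := by
    have d2 := s.dn 1
    have hB : 0 < B := by have := p.B1; linarith
    have hm := p.m0
    have hsum := p.sum
    have cm : m * (A + B * M + m) = α + m := by
      rw [← p.prod]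
      have h2 : A = 1 - m - M := by linarith
      rw [h2]; ring
    by_contra hc
    push Not at hc
    have h5 := mul_lt_mul_of_pos_right hc d2
    have h6 : 0 ≤ (1 - m) * (m - x 1) :=
      mul_nonneg (by have := p.M1; have := p.mM; linarith) (by linarith)
    have h7 : 0 ≤ m * B * (x 2 - M) := mul_nonneg (mul_pos hm hB).le (by linarith)
    norm_num at d1 h5
    nlinarith
  have h5 : Lim (fun n => x (n + 2)) M m := by
    have := region_lim p (s.shiftN 2) (x := fun n => x (n + 2)) h3 h4
    exact this
  have h6 : Lim (fun n => x (n + 1)) m M :=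
    (lim_shift (fun n => x (n + 1)) M m).1 h5
  exact (lim_shift x m M).1 h6

/-- comparison of two solutions in the south-east order -/
lemma comp (p : Par α A B m M e) (s : Sol α A B x) (t : Sol α A B y)
    (h0 : x 0 ≤ y 0) (h1 : y 1 ≤ x 1) :
    Lim y M m ∨ Lim x m M ∨
      ∀ k, x (2 * k) ≤ y (2 * k) ∧ y (2 * k + 1) ≤ x (2 * k + 1) := by
  by_cases hy : Lim y M m
  · exact Or.inl hy
  by_cases hx : Lim x m M
  · exact Or.inr (Or.inl hx)
  refine Or.inr (Or.inr ?_)
  have hB : 0 < B := by have := p.B1; linarith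
  have ha := p.a0
  -- good times
  have gy : ∀ k, α ≤ A + B * y (2 * k + 1) := by
    intro k
    by_contra hc
    push Not at hc
    apply hy
    have h2 := bad p (t.shiftN (2 * k)) (x := fun n => y (n + 2 * k))
      (by rw [show 1 + 2 * k = 2 * k + 1 by ring]; exact hc.le)
    refine ⟨?_, ?_⟩
    · refine (tendsto_add_atTop_iff_nat (f := fun j => y (2 * j)) k).1 ?_
      refine h2.1.congr fun j => ?_
      congr 1
      ring_nf
    · refine (tendsto_add_atTop_iff_nat (f := fun j => y (2 * j + 1)) k).1 ?_
      refine h2.2.congr fun j => ?_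
      congr 1
      ring_nf
  have gx : ∀ k, α ≤ A + B * x (2 * k + 2) := by
    intro k
    by_contra hc
    push Not at hc
    apply hx
    have h2 := bad p (s.shiftN (2 * k + 1)) (x := fun n => x (n + (2 * k + 1)))
      (by rw [show 1 + (2 * k + 1) = 2 * k + 2 by ring]; exact hc.le)
    refine ⟨?_, ?_⟩
    · refine (tendsto_add_atTop_iff_nat (f := fun j => x (2 * j)) (k + 1)).1 ?_
      refine h2.2.congr fun j => ?_
      congr 1
      ring_nf
    · refine (tendsto_add_atTop_iff_nat (f := fun j => x (2 * j + 1)) k).1 ?_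
      refine h2.1.congr fun j => ?_
      congr 1
      ring_nf
  intro k
  induction k with
  | zero => exact ⟨h0, h1⟩
  | succ k ih =>
    have j1 : x (2 * k + 2) ≤ y (2 * k + 2) := s.mono t ha hB (n := 2 * k) ih.1 ih.2 (gy k)
    have j2 : y (2 * k + 1 + 2) ≤ x (2 * k + 1 + 2) :=
      t.mono s ha hB (n := 2 * k + 1) ih.2 j1 (gx k)
    exact ⟨j1, j2⟩

lemma up (p : Par α A B m M e) (s : Sol α A B x) (t : Sol α A B y)
    (h0 : x 0 ≤ y 0) (h1 : y 1 ≤ x 1) (h : Lim x M m) : Lim y M m := by
  have hmM := p.mM
  have heM := p.eM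
  rcases comp p s t h0 h1 with h2 | h2 | h2
  · exact h2
  · exact absurd (h.unique h2).1 (by linarith)
  · rcases tri p t with h3 | h3 | h3
    · have := le_of_tendsto_of_tendsto' h.1 h3.1 fun k => (h2 k).1
      linarith
    · exact h3
    · have := le_of_tendsto_of_tendsto' h.1 h3.1 fun k => (h2 k).1
      linarith

lemma down (p : Par α A B m M e) (s : Sol α A B x) (t : Sol α A B y)
    (h0 : x 0 ≤ y 0) (h1 : y 1 ≤ x 1) (h : Lim y m M) : Lim x m M := by
  have hmM := p.mM
  have hme := p.me
  rcases comp p s t h0 h1 with h2 | h2 | h2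
  · exact absurd (h.unique h2).1 (by linarith)
  · exact h2
  · rcases tri p s with h3 | h3 | h3
    · have := le_of_tendsto_of_tendsto' h3.1 h.1 fun k => (h2 k).1
      linarith
    · have := le_of_tendsto_of_tendsto' h3.1 h.1 fun k => (h2 k).1
      linarith
    · exact h3

lemma Lim.tendsto {a : ℝ} (h : Lim x a a) : Tendsto x atTop (𝓝 a) := by
  rw [tendsto_def]
  intro U hU
  have h1 := h.1 hU
  have h2 := h.2 hU
  rw [mem_map, mem_atTop_sets] at h1 h2
  obtain ⟨k1, h1⟩ := h1
  obtain ⟨k2, h2⟩ := h2
  rw [mem_atTop_sets]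
  refine ⟨2 * k1 + 2 * k2 + 1, fun n hn => ?_⟩
  rcases Nat.even_or_odd' n with ⟨j, rfl | rfl⟩
  · exact h1 j (by omega)
  · exact h2 j (by omega)

lemma lim_of_tendsto {a : ℝ} (h : Tendsto x atTop (𝓝 a)) : Lim x a a :=
  ⟨h.comp (tendsto_id.const_mul_atTop' two_pos),
    h.comp (tendsto_atTop_mono (fun k => by show k ≤ 2 * k + 1; omega) tendsto_id)⟩

/-- a solution which converges to the equilibrium never gets to the region of the lemma `bad` -/
lemma w_good (p : Par α A B m M e) (s : Sol α A B x) (h : Lim x e e) (n : ℕ) :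
    α < A + B * x (n + 1) := by
  by_contra hc
  push Not at hc
  have h2 := bad p (s.shiftN n) (x := fun k => x (k + n))
    (by rw [show 1 + n = n + 1 by ring]; exact hc)
  have h3 : Tendsto (fun k => x (k + n)) atTop (𝓝 e) :=
    (tendsto_add_atTop_iff_nat n).2 h.tendsto
  have h4 := (h2.unique (lim_of_tendsto h3)).1
  have := p.eM
  linarith

/-- two solutions which converge to the equilibrium are not comparable -/
lemma anti (p : Par α A B m M e) (s : Sol α A B x) (t : Sol α A B y)
    (h0 : x 0 ≤ y 0) (h1 : y 1 ≤ x 1) (hx : Lim x e e) (hy : Lim y e e) :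
    x 0 = y 0 ∧ x 1 = y 1 := by
  have hB : 0 < B := by have := p.B1; linarith
  have ha := p.a0
  have hA := p.A0
  have he := p.e0
  have hmM := p.mM
  have heM := p.eM
  have hme := p.me
  rcases comp p s t h0 h1 with h2 | h2 | h2
  · exact absurd (hy.unique h2).1 (by linarith)
  · exact absurd (hx.unique h2).1 (by linarith)
  by_contra hne
  have tx := hx.tendsto
  have ty := hy.tendsto
  -- the differences
  set a : ℕ → ℝ := fun n => |x n - y n| with hadef
  have hpos : 0 < a 0 ∨ 0 < a 1 := by
    by_contra hc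
    push Not at hc
    apply hne
    have i1 : a 0 = 0 := le_antisymm hc.1 (abs_nonneg _)
    have i2 : a 1 = 0 := le_antisymm hc.2 (abs_nonneg _)
    exact ⟨sub_eq_zero.1 (abs_eq_zero.1 i1), sub_eq_zero.1 (abs_eq_zero.1 i2)⟩
  -- the recursion of the differences, with a common lower bound of the coefficients
  set D : ℕ → ℝ := fun n => (A + B * x (n + 1) + x n) * (A + B * y (n + 1) + y n) with hD
  have hDpos : ∀ n, 0 < D n := fun n => mul_pos (s.dn n) (t.dn n)
  set P : ℕ → ℝ := fun n => B * (α + min (x n) (y n)) / D n with hP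
  set Q : ℕ → ℝ := fun n => (A + B * min (x (n + 1)) (y (n + 1)) - α) / D n with hQ
  have hPpos : ∀ n, 0 < P n := fun n =>
    div_pos (mul_pos hB (by have := le_min (s.nn n) (t.nn n); linarith)) (hDpos n)
  have hQpos : ∀ n, 0 < Q n := fun n =>
    div_pos (by
      have g1 := w_good p s hx n
      have g2 := w_good p t hy n
      rcases min_choice (x (n + 1)) (y (n + 1)) with h | h <;> rw [h] <;> linarith) (hDpos n)
  have hrec : ∀ n, P n * a (n + 1) + Q n * a n ≤ a (n + 2) := by
    intro n
    have hk : a (n + 2) * D n = (B * (α + (if Even n then y n else x n))) * a (n + 1) +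
        (A + B * (if Even n then y (n + 1) else x (n + 1)) - α) * a n := by
      rcases Nat.even_or_odd' n with ⟨k, rfl | rfl⟩
      · have e0 := h2 k
        have e1 := h2 (k + 1)
        rw [show 2 * (k + 1) = 2 * k + 2 by ring] at e1
        have a0 : a (2 * k) = y (2 * k) - x (2 * k) := by
          simp only [hadef]; rw [abs_of_nonpos (by linarith [e0.1])]; ring
        have a1 : a (2 * k + 1) = x (2 * k + 1) - y (2 * k + 1) := by
          simp only [hadef]; rw [abs_of_nonneg (by linarith [e0.2])]
        have a2 : a (2 * k + 2) = y (2 * k + 2) - x (2 * k + 2) := by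
          simp only [hadef]; rw [abs_of_nonpos (by linarith [e1.1])]; ring
        have hev : Even (2 * k) := even_two_mul k
        rw [a0, a1, a2, if_pos hev, if_pos hev]
        exact s.key t (2 * k)
      · have e0 := h2 k
        have e1 := h2 (k + 1)
        rw [show 2 * (k + 1) = 2 * k + 2 by ring] at e1
        have a0 : a (2 * k + 1) = x (2 * k + 1) - y (2 * k + 1) := by
          simp only [hadef]; rw [abs_of_nonneg (by linarith [e0.2])]
        have a1 : a (2 * k + 1 + 1) = y (2 * k + 1 + 1) - x (2 * k + 1 + 1) := by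
          simp only [hadef]
          rw [abs_of_nonpos (by have := e1.1; linarith)]; ring
        have a2 : a (2 * k + 1 + 2) = x (2 * k + 1 + 2) - y (2 * k + 1 + 2) := by
          simp only [hadef]
          rw [abs_of_nonneg (by have := e1.2; linarith)]
        have hod : ¬ Even (2 * k + 1) := Nat.not_even_iff_odd.2 (odd_two_mul_add_one k)
        rw [a0, a1, a2, if_neg hod, if_neg hod]
        have h3 := t.key s (2 * k + 1)
        simp only [hD]
        linear_combination h3
    have ha0 : 0 ≤ a n := abs_nonneg _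
    have ha1 : 0 ≤ a (n + 1) := abs_nonneg _
    have m1 : min (x n) (y n) ≤ (if Even n then y n else x n) := by
      split_ifs
      · exact min_le_right _ _
      · exact min_le_left _ _
    have m2 : min (x (n + 1)) (y (n + 1)) ≤ (if Even n then y (n + 1) else x (n + 1)) := by
      split_ifs
      · exact min_le_right _ _
      · exact min_le_left _ _
    have h3 : (P n * a (n + 1) + Q n * a n) * D n ≤ a (n + 2) * D n := by
      rw [hk]
      have h4 : (P n * a (n + 1) + Q n * a n) * D n =
          (B * (α + min (x n) (y n))) * a (n + 1) +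
            (A + B * min (x (n + 1)) (y (n + 1)) - α) * a n := by
        simp only [hP, hQ]
        have := (hDpos n).ne'
        field_simp
      rw [h4]
      have h5 := mul_le_mul_of_nonneg_right (mul_le_mul_of_nonneg_left
        (add_le_add_right m1 α) hB.le) ha1
      have h6 := mul_le_mul_of_nonneg_right (mul_le_mul_of_nonneg_left m2 hB.le) ha0
      nlinarith
    exact le_of_mul_le_mul_right h3 (hDpos n)
  have hapos : ∀ n, 0 < a (n + 2) ∧ 0 < a (n + 3) := by
    have b2 : 0 < a 2 := by
      have h3 := hrec 0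
      have ha0 : 0 ≤ a 0 := abs_nonneg _
      have ha1 : 0 ≤ a 1 := abs_nonneg _
      rcases hpos with h4 | h4
      · nlinarith [mul_pos (hQpos 0) h4, mul_nonneg (hPpos 0).le ha1]
      · nlinarith [mul_pos (hPpos 0) h4, mul_nonneg (hQpos 0).le ha0]
    intro n
    induction n with
    | zero =>
      refine ⟨b2, ?_⟩
      have h3 := hrec 1
      have ha1 : 0 ≤ a 1 := abs_nonneg _
      nlinarith [mul_pos (hPpos 1) b2, mul_nonneg (hQpos 1).le ha1]
    | succ n ih =>
      refine ⟨ih.2, ?_⟩
      have h3 := hrec (n + 2)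
      nlinarith [mul_pos (hPpos (n + 2)) ih.2, mul_pos (hQpos (n + 2)) ih.1]
  -- the limits of the coefficients
  have tD : Tendsto D atTop (𝓝 ((A + B * e + e) * (A + B * e + e))) := by
    have sx : Tendsto (fun n => x (n + 1)) atTop (𝓝 e) := (tendsto_add_atTop_iff_nat 1).2 tx
    have sy : Tendsto (fun n => y (n + 1)) atTop (𝓝 e) := (tendsto_add_atTop_iff_nat 1).2 ty
    exact ((tendsto_const_nhds.add (tendsto_const_nhds.mul sx)).add tx).mul
      ((tendsto_const_nhds.add (tendsto_const_nhds.mul sy)).add ty)
  have hD0 : 0 < A + B * e + e := by nlinarith [mul_pos hB he]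
  have tPQ : Tendsto (fun n => P n + Q n) atTop
      (𝓝 (B * (α + e) / ((A + B * e + e) * (A + B * e + e)) +
        (A + B * e - α) / ((A + B * e + e) * (A + B * e + e)))) := by
    have sx : Tendsto (fun n => x (n + 1)) atTop (𝓝 e) := (tendsto_add_atTop_iff_nat 1).2 tx
    have sy : Tendsto (fun n => y (n + 1)) atTop (𝓝 e) := (tendsto_add_atTop_iff_nat 1).2 ty
    have mn : Tendsto (fun n => min (x n) (y n)) atTop (𝓝 e) := by
      have := tx.min ty
      rwa [min_self] at this
    have mn1 : Tendsto (fun n => min (x (n + 1)) (y (n + 1))) atTop (𝓝 e) := by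
      have := sx.min sy
      rwa [min_self] at this
    exact ((tendsto_const_nhds.mul (tendsto_const_nhds.add mn)).div tD (mul_pos hD0 hD0).ne').add
      (((tendsto_const_nhds.add (tendsto_const_nhds.mul mn1)).sub tendsto_const_nhds).div tD
        (mul_pos hD0 hD0).ne')
  have hgt : 1 < B * (α + e) / ((A + B * e + e) * (A + B * e + e)) +
        (A + B * e - α) / ((A + B * e + e) * (A + B * e + e)) := by
    rw [← add_div, one_lt_div (mul_pos hD0 hD0)]
    have h3 : B * (α + e) + (A + B * e - α) - (A + B * e + e) * (A + B * e + e) =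
        (1 - A - 2 * e) * (A + B * e + e) +
          (B - 1) * (α + (1 - A) * e - (B + 1) * e ^ 2) := by
      ring
    have h4 : α + (1 - A) * e - (B + 1) * e ^ 2 = 0 := by have := p.eq; linarith
    rw [h4] at h3
    have h5 : 0 < (1 - A - 2 * e) * (A + B * e + e) :=
      mul_pos (by have := p.e2; linarith) hD0
    linarith
  obtain ⟨N, hN⟩ := eventually_atTop.1 (tPQ.eventually (lt_mem_nhds hgt))
  -- the minimum of two consecutive differences does not decrease
  set μ : ℕ → ℝ := fun n => min (a n) (a (n + 1)) with hμ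
  have hmu : ∀ n, N ≤ n → μ n ≤ μ (n + 1) := by
    intro n hn
    have ha0 : 0 ≤ a n := abs_nonneg _
    have ha1 : 0 ≤ a (n + 1) := abs_nonneg _
    have h3 := hrec n
    have h4 : 1 < P n + Q n := hN n hn
    have h5 : μ n ≤ a n := min_le_left _ _
    have h6 : μ n ≤ a (n + 1) := min_le_right _ _
    have h7 : 0 ≤ μ n := le_min ha0 ha1
    refine le_min h6 ?_
    have h8 := mul_le_mul_of_nonneg_left h6 (hPpos n).le
    have h9 := mul_le_mul_of_nonneg_left h5 (hQpos n).le
    nlinarith
  have hmu2 : ∀ n, N + 2 ≤ n → μ (N + 2) ≤ μ n := by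
    intro n hn
    induction n, hn using Nat.le_induction with
    | base => exact le_rfl
    | succ n hn ih => exact ih.trans (hmu n (by omega))
  have tmu : Tendsto μ atTop (𝓝 0) := by
    have ta : Tendsto a atTop (𝓝 0) := by
      have := (tx.sub ty).abs
      rwa [sub_self, abs_zero] at this
    have := ta.min ((tendsto_add_atTop_iff_nat 1).2 ta)
    rwa [min_self] at this
  have hle : μ (N + 2) ≤ 0 :=
    ge_of_tendsto tmu (eventually_atTop.2 ⟨N + 2, hmu2⟩)
  have hlt : 0 < μ (N + 2) := lt_min (hapos N).1 (hapos N).2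
  linarith

/-- the constant solution -/
lemma const_sol (p : Par α A B m M e) : Sol α A B (fun _ => e) := by
  have he := p.e0
  have hB : 0 < B := by have := p.B1; linarith
  have hA := p.A0
  refine ⟨fun _ => he.le, fun _ => ?_, fun _ => ?_⟩
  · nlinarith [mul_pos hB he]
  · have := p.eq
    linear_combination this

lemma const_lim : Lim (fun _ : ℕ => e) e e := ⟨tendsto_const_nhds, tendsto_const_nhds⟩

lemma above (p : Par α A B m M e) (s : Sol α A B x) (t : Sol α A B y)
    (h0 : x 0 ≤ y 0) (h1 : y 1 ≤ x 1) (hne : x 0 ≠ y 0 ∨ x 1 ≠ y 1) (hx : Lim x e e) :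
    Lim y M m := by
  have hme := p.me
  rcases comp p s t h0 h1 with h2 | h2 | h2
  · exact h2
  · exact absurd (hx.unique h2).1 (by linarith)
  · rcases tri p t with h3 | h3 | h3
    · have h4 := anti p s t h0 h1 hx h3
      rcases hne with h5 | h5
      · exact absurd h4.1 h5
      · exact absurd h4.2 h5
    · exact h3
    · have := le_of_tendsto_of_tendsto' hx.1 h3.1 fun k => (h2 k).1
      linarith

lemma below (p : Par α A B m M e) (s : Sol α A B x) (t : Sol α A B y)
    (h0 : x 0 ≤ y 0) (h1 : y 1 ≤ x 1) (hne : x 0 ≠ y 0 ∨ x 1 ≠ y 1) (hy : Lim y e e) :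
    Lim x m M := by
  have heM := p.eM
  rcases comp p s t h0 h1 with h2 | h2 | h2
  · exact absurd (hy.unique h2).1 (by linarith)
  · exact h2
  · rcases tri p s with h3 | h3 | h3
    · have h4 := anti p s t h0 h1 h3 hy
      rcases hne with h5 | h5
      · exact absurd h4.1 h5
      · exact absurd h4.2 h5
    · have := le_of_tendsto_of_tendsto' h3.1 hy.1 fun k => (h2 k).1
      linarith
    · exact h3

end Pool.Agent.Helper10K9.BT
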