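import Pool.Agent.Helper10K9.BT.Fun

/-!
# The derivative at the equilibrium and the behaviour at infinity
-/

set_option autoImplicit false

open Filter Topology Set

namespace Pool.Agent.Helper10K9.BT

variable {α A B m M e : ℝ} {g : ℝ → ℝ}

/-- the positive root of `(A + (B + 1) e) t ^ 2 + B e t = 1 - e` -/
noncomputable def slope (A B e : ℝ) : ℝ :=
  (√((B * e) ^ 2 + 4 * (1 - e) * (A + (B + 1) * e)) - B * e) / (2 * (A + (B + 1) * e))

lemma slope_eq (p : Par α A B m M e) :
    0 < slope A B e ∧
      (A + (B + 1) * e) * slope A B e ^ 2 + B * e * slope A B e = 1 - e := by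
  have hB : 0 < B := by have := p.B1; linarith
  have he := p.e0
  have hA := p.A0
  have h1 : 0 < 1 - e := by have := p.M1; have := p.eM; linarith
  have hD : 0 < A + (B + 1) * e := by nlinarith [mul_pos hB he]
  have hBe : 0 < B * e := mul_pos hB he
  have h2 : 0 ≤ (B * e) ^ 2 + 4 * (1 - e) * (A + (B + 1) * e) := by positivity
  set q := √((B * e) ^ 2 + 4 * (1 - e) * (A + (B + 1) * e)) with hq
  have h3 : q ^ 2 = (B * e) ^ 2 + 4 * (1 - e) * (A + (B + 1) * e) := Real.sq_sqrt h2
  have h4 : B * e < q := by
    apply Real.lt_sqrt_of_sq_lt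
    nlinarith [mul_pos h1 hD]
  constructor
  · exact div_pos (by linarith) (by linarith)
  · show (A + (B + 1) * e) * ((q - B * e) / (2 * (A + (B + 1) * e))) ^ 2 +
      B * e * ((q - B * e) / (2 * (A + (B + 1) * e))) = 1 - e
    have hD' := hD.ne'
    field_simp
    linear_combination h3

lemma conj_gt (p : Par α A B m M e) :
    1 < slope A B e + B * e / (A + (B + 1) * e) := by
  obtain ⟨h1, h2⟩ := slope_eq p
  have hB : 0 < B := by have := p.B1; linarith
  have he := p.e0
  have hA := p.A0
  have hD : 0 < A + (B + 1) * e := by nlinarith [mul_pos hB he]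
  have h3 := p.e2
  set D := A + (B + 1) * e with hDdef
  set l := slope A B e with hl
  have h4 : (l + 1) * (D * (l + B * e / D) - D) = 1 - A - 2 * e := by
    have h5 : D * (l + B * e / D) = D * l + B * e := by field_simp
    rw [h5]
    have h6 : D = A + (B + 1) * e := hDdef
    linear_combination h2 - h6
  have h5 : 0 < D * (l + B * e / D) - D := by
    by_contra hc
    push Not at hc
    nlinarith
  by_contra hc
  push Not at hc
  nlinarith [mul_le_mul_of_nonneg_left hc hD.le]

section

variable (p : Par α A B m M e) (hg : IsG α A B e g)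

include p hg

lemma ratio_pos {u : ℝ} (hu : 0 ≤ u) (hne : u ≠ e) :
    0 < (g u - e) / (u - e) ∧ (g u - e) / (u - e) < 1 ∧ |g u - e| < |u - e| ∧ g u ≠ e := by
  rcases lt_or_gt_of_ne hne with h | h
  · obtain ⟨h1, h2⟩ := g_lt p hg hu h
    refine ⟨div_pos_of_neg_of_neg (by linarith) (by linarith), ?_, ?_, h2.ne⟩
    · rw [div_lt_one_of_neg (by linarith)]
      linarith
    · rw [abs_of_neg (by linarith), abs_of_neg (by linarith)]
      linarith
  · obtain ⟨h1, h2⟩ := g_gt p hg h
    refine ⟨div_pos (by linarith) (by linarith), ?_, ?_, h1.ne'⟩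
    · rw [div_lt_one (by linarith)]
      linarith
    · rw [abs_of_pos (by linarith), abs_of_pos (by linarith)]
      linarith

lemma contraction {u : ℝ} (hu : 0 ≤ u) (hne : u ≠ e) :
    |(g u - e) / (u - e) - slope A B e| *
        ((slope A B e + B * e / (A + (B + 1) * e)) * (A + (B + 1) * e)) ≤
      |(g (g u) - e) / (g u - e) - slope A B e| * (A + B * g u + u) +
        slope A B e * |(A + B * g u + u) - (A + (B + 1) * e)| := by
  obtain ⟨hl, hleq⟩ := slope_eq p
  obtain ⟨hr0, hr1, -, hne2⟩ := ratio_pos p hg hu hne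
  have hB : 0 < B := by have := p.B1; linarith
  have he := p.e0
  have hA := p.A0
  have hD : 0 < A + (B + 1) * e := by nlinarith [mul_pos hB he]
  have hue : u - e ≠ 0 := sub_ne_zero.2 hne
  have hve : g u - e ≠ 0 := sub_ne_zero.2 hne2
  have h1 := g_eq p hg hu
  have hgu := (hg u hu).1
  set D := A + (B + 1) * e with hDdef
  set l := slope A B e with hldef
  set r := (g u - e) / (u - e) with hr
  set r' := (g (g u) - e) / (g u - e) with hr'
  set D' := A + B * g u + u with hD'
  have hD'pos : 0 < D' := by have := mul_pos hB hgu; linarith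
  have e1 : g u - e = r * (u - e) := by rw [hr]; field_simp
  have e2 : g (g u) - e = r' * (g u - e) := by rw [hr']; field_simp
  have e3 : (g (g u) - e) * D' = (1 - e) * (u - e) - B * e * (g u - e) := by
    have := p.eq
    rw [hD'] at h1 ⊢
    linear_combination h1 - this
  have e4 : r' * r * D' = (1 - e) - B * e * r := by
    have h3 : (r' * r * D' - ((1 - e) - B * e * r)) * (u - e) = 0 := by
      rw [e2, e1] at e3
      linear_combination e3
    rcases mul_eq_zero.1 h3 with h4 | h4
    · linarith
    · exact absurd h4 hue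
  -- `(r' D' - l D) r = (l - r) (l D + B e)`
  have e5 : (r' * D' - l * D) * r = (l - r) * (l * D + B * e) := by
    linear_combination e4 - hleq
  have e6 : (l + B * e / D) * D = l * D + B * e := by field_simp
  rw [e6]
  have hc : 0 < l * D + B * e := by positivity
  have h5 : |r - l| * (l * D + B * e) = |r' * D' - l * D| * r := by
    have h8 : |r - l| * |l * D + B * e| = |r' * D' - l * D| * |r| := by
      rw [← abs_mul, ← abs_mul, e5, ← abs_neg]
      congr 1
      ring
    rwa [abs_of_pos hc, abs_of_pos hr0] at h8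
  rw [h5]
  have h6 : |r' * D' - l * D| * r ≤ |r' * D' - l * D| :=
    mul_le_of_le_one_right (abs_nonneg _) hr1.le
  refine h6.trans ?_
  have h7 : r' * D' - l * D = (r' - l) * D' + l * (D' - D) := by ring
  rw [h7]
  refine (abs_add_le _ _).trans ?_
  rw [abs_mul, abs_mul, abs_of_pos hD'pos, abs_of_pos hl]

/-- the graph has the slope `slope A B e` at the equilibrium -/
lemma g_deriv : HasDerivAt g (slope A B e) e := by
  obtain ⟨hl, hleq⟩ := slope_eq p
  have hc := conj_gt p
  have hB : 0 < B := by have := p.B1; linarith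
  have he := p.e0
  have hA := p.A0
  have hD : 0 < A + (B + 1) * e := by nlinarith [mul_pos hB he]
  have hge := g_e p hg
  have hcont : ContinuousAt g e := (g_cont p hg).continuousAt (Ici_mem_nhds he)
  set D := A + (B + 1) * e with hDdef
  set l := slope A B e with hldef
  set c := l + B * e / D with hcdef
  rw [hasDerivAt_iff_tendsto_slope, Metric.tendsto_nhds]
  intro ε hε
  -- the constants
  set q := (c + 1) / (2 * c) with hq
  have hc0 : 0 < c := by linarith
  have hq0 : 0 < q := by positivity
  have hq1 : q < 1 := by rw [hq, div_lt_one (by linarith)]; linarith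
  have hqc : q * c = (c + 1) / 2 := by rw [hq]; field_simp
  set ε' := ε * (1 - q) / 2 with hε'
  have hε'0 : 0 < ε' := by have := mul_pos hε (sub_pos.2 hq1); rw [hε']; linarith
  have hDc : Tendsto (fun u => A + B * g u + u) (𝓝 e) (𝓝 D) := by
    have h1 : Tendsto (fun u => A + B * g u + u) (𝓝 e) (𝓝 (A + B * g e + e)) :=
      (tendsto_const_nhds.add (tendsto_const_nhds.mul hcont)).add tendsto_id
    rw [hge] at h1
    have h2 : A + B * e + e = D := by rw [hDdef]; ring
    rwa [h2] at h1
  have h1 : ∀ᶠ u in 𝓝 e, A + B * g u + u < D * ((c + 1) / 2) := by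
    apply hDc.eventually (gt_mem_nhds _)
    nlinarith
  have h2 : ∀ᶠ u in 𝓝 e, |(A + B * g u + u) - D| < ε' * (c * D) / l := by
    have h3 : Tendsto (fun u => |(A + B * g u + u) - D|) (𝓝 e) (𝓝 0) := by
      have := (hDc.sub_const D).abs
      rwa [sub_self, abs_zero] at this
    exact h3.eventually (gt_mem_nhds (by positivity))
  obtain ⟨δ, hδ, hδ2⟩ := Metric.eventually_nhds_iff.1 (h1.and (h2.and (lt_mem_nhds he)))
  have key : ∀ n : ℕ, ∀ u, |u - e| < δ → u ≠ e →
      |(g u - e) / (u - e) - l| ≤ q ^ n * (1 + l) + ε' / (1 - q) := by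
    intro n
    induction n with
    | zero =>
      intro u hu hne
      obtain ⟨-, -, hu0⟩ := hδ2 (y := u) (by rw [Real.dist_eq]; exact hu)
      obtain ⟨hr0, hr1, -, -⟩ := ratio_pos p hg (u := u) (le_of_lt hu0) hne
      have : 0 ≤ ε' / (1 - q) := div_nonneg hε'0.le (by linarith)
      rw [pow_zero, one_mul, abs_le]
      constructor <;> linarith
    | succ n ih =>
      intro u hu hne
      obtain ⟨hd1, hd2, hu0⟩ := hδ2 (y := u) (by rw [Real.dist_eq]; exact hu)
      obtain ⟨hr0, hr1, hab, hne2⟩ := ratio_pos p hg (u := u) (le_of_lt hu0) hne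
      have h3 := ih (g u) (hab.trans hu) hne2
      have h4 := contraction p hg (u := u) (le_of_lt hu0) hne
      have h5 : |(g (g u) - e) / (g u - e) - l| * (A + B * g u + u) ≤
          |(g (g u) - e) / (g u - e) - l| * (D * (q * c)) := by
        rw [hqc]
        exact mul_le_mul_of_nonneg_left hd1.le (abs_nonneg _)
      have h6 : l * |(A + B * g u + u) - D| ≤ ε' * (c * D) := by
        have := mul_le_mul_of_nonneg_left hd2.le hl.le
        rwa [mul_div_cancel₀ _ hl.ne'] at this
      have h7 : |(g u - e) / (u - e) - l| * (c * D) ≤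
          (q * |(g (g u) - e) / (g u - e) - l| + ε') * (c * D) := by
        calc |(g u - e) / (u - e) - l| * (c * D) ≤ _ := h4
          _ ≤ |(g (g u) - e) / (g u - e) - l| * (D * (q * c)) + ε' * (c * D) :=
            add_le_add h5 h6
          _ = _ := by ring
      have h8 := le_of_mul_le_mul_right h7 (by positivity)
      have h9 : ε' / (1 - q) = q * (ε' / (1 - q)) + ε' := by
        have : (1 - q) ≠ 0 := by linarith
        field_simp
        ring
      rw [h9]
      have h10 := mul_le_mul_of_nonneg_left h3 hq0.le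
      calc |(g u - e) / (u - e) - l| ≤ _ := h8
        _ ≤ q * (q ^ n * (1 + l) + ε' / (1 - q)) + ε' := by linarith
        _ = _ := by ring
  rw [eventually_nhdsWithin_iff, Metric.eventually_nhds_iff]
  refine ⟨δ, hδ, fun u hu hne => ?_⟩
  rw [Real.dist_eq] at hu
  have hne' : u ≠ e := hne
  have h3 : |(g u - e) / (u - e) - l| ≤ ε' / (1 - q) := by
    have t1 : Tendsto (fun n : ℕ => q ^ n * (1 + l) + ε' / (1 - q)) atTop
        (𝓝 (0 * (1 + l) + ε' / (1 - q))) :=
      ((tendsto_pow_atTop_nhds_zero_of_lt_one hq0.le hq1).mul_const _).add_const _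
    rw [zero_mul, zero_add] at t1
    exact ge_of_tendsto' t1 fun n => key n u hu hne'
  have h4 : ε' / (1 - q) = ε / 2 := by
    rw [hε']
    have : (1 - q) ≠ 0 := by linarith
    field_simp
  rw [h4] at h3
  rw [slope_def_field, hge, Real.dist_eq]
  linarith

/-- the function is bounded, and its limit `L` at infinity satisfies `g L = 1` -/
lemma g_top : ∃ L, e < L ∧ g L = 1 ∧ Tendsto g atTop (𝓝 L) := by
  have hB : 0 < B := by have := p.B1; linarith
  have ha := p.a0
  have hA := p.A0
  have he := p.e0
  have hmono := g_mono p hg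
  have hmo : MonotoneOn g (Ici 0) := hmono.monotoneOn
  -- `g (g u) ≤ 1` for `u > e`
  have hgg : ∀ u, e ≤ u → g (g u) ≤ 1 := by
    intro u hu
    have hu0 : 0 ≤ u := by linarith
    have h1 := g_eq p hg hu0
    have h2 : e ≤ g u := by
      have := hmo (show (0 : ℝ) ≤ e from he.le) (show (0 : ℝ) ≤ u from hu0) hu
      rwa [g_e p hg] at this
    have h3 : α ≤ A + B * g u := by
      have h4 := p.gm
      have h5 := p.me
      nlinarith [mul_le_mul_of_nonneg_left h2 hB.le, mul_lt_mul_of_pos_left h5 hB]
    have h4 : 0 < A + B * g u + u := by linarith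
    by_contra hc
    push Not at hc
    nlinarith [mul_lt_mul_of_pos_right hc h4]
  -- `g` is bounded
  have hbd : ∃ C, ∀ u, 0 ≤ u → g u ≤ C := by
    by_contra hno
    push Not at hno
    -- some value of `g` is larger than one
    obtain ⟨t, ht, ht1⟩ := hno 1
    obtain ⟨u, hu, hu1⟩ := hno (max t e)
    have h1 : t < g u := lt_of_le_of_lt (le_max_left _ _) hu1
    have h2 : e < g u := lt_of_le_of_lt (le_max_right _ _) hu1
    have h3 : e ≤ u := by
      by_contra hc
      push Not at hc
      have := (g_lt p hg hu hc).2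
      linarith
    have h4 : g t < g (g u) := hmono ht (show (0 : ℝ) ≤ g u by linarith) h1
    have := hgg u h3
    linarith
  obtain ⟨C, hC⟩ := hbd
  -- the limit
  have hmax : Monotone (fun u => g (max u 0)) := fun u v huv =>
    hmo (le_max_right u 0) (le_max_right v 0) (max_le_max_right 0 huv)
  have h1 : Tendsto (fun u => g (max u 0)) atTop (𝓝 (⨆ u, g (max u 0))) :=
    tendsto_atTop_ciSup hmax ⟨C, by rintro _ ⟨u, rfl⟩; exact hC _ (le_max_right u 0)⟩
  set L := ⨆ u, g (max u 0) with hL
  have h2 : Tendsto g atTop (𝓝 L) := by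
    refine h1.congr' ?_
    filter_upwards [eventually_ge_atTop (0 : ℝ)] with u hu
    rw [max_eq_left hu]
  have hLe : e < L := by
    have h3 : g (max (e + 1) 0) ≤ L :=
      le_ciSup (f := fun u => g (max u 0))
        ⟨C, by rintro _ ⟨u, rfl⟩; exact hC _ (le_max_right u 0)⟩ (e + 1)
    rw [max_eq_left (by linarith)] at h3
    have := (g_gt p hg (u := e + 1) (by linarith)).1
    linarith
  refine ⟨L, hLe, ?_, h2⟩
  have hcL : ContinuousAt g L :=
    (g_cont p hg).continuousAt (Ici_mem_nhds (by linarith))
  have h3 : Tendsto (fun u => g (g u)) atTop (𝓝 (g L)) := hcL.tendsto.comp h2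
  -- the limit of the right hand side
  have h4 : Tendsto (fun u : ℝ => (α + u) / (A + B * g u + u)) atTop (𝓝 1) := by
    have h5 : Tendsto (fun u : ℝ => (α * u⁻¹ + 1) / ((A + B * g u) * u⁻¹ + 1)) atTop
        (𝓝 ((α * 0 + 1) / ((A + B * L) * 0 + 1))) := by
      apply Tendsto.div
      · exact (tendsto_const_nhds.mul tendsto_inv_atTop_zero).add tendsto_const_nhds
      · exact ((tendsto_const_nhds.add (tendsto_const_nhds.mul h2)).mul
          tendsto_inv_atTop_zero).add tendsto_const_nhds
      · norm_num
    have h6 : (α * 0 + 1) / ((A + B * L) * 0 + 1) = (1 : ℝ) := by norm_num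
    rw [h6] at h5
    refine h5.congr' ?_
    filter_upwards [eventually_gt_atTop (0 : ℝ)] with u hu
    have h7 := (hg u hu.le).1
    have h8 : 0 < A + B * g u + u := by have := mul_pos hB h7; linarith
    rw [div_eq_div_iff]
    · field_simp
    · have : 0 ≤ (A + B * g u) * u⁻¹ := by positivity
      linarith
    · exact h8.ne'
  have h5 : Tendsto (fun u => g (g u)) atTop (𝓝 1) := by
    refine h4.congr' ?_
    filter_upwards [eventually_gt_atTop (0 : ℝ)] with u hu
    have h7 := (hg u hu.le).1
    have h8 : 0 < A + B * g u + u := by have := mul_pos hB h7; linarith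
    rw [div_eq_iff h8.ne']
    exact (g_eq p hg hu.le).symm
  exact tendsto_nhds_unique h3 h5

end

end Pool.Agent.Helper10K9.BT
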