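import Pool.Agent.Helper10K9.BT.Graph

/-!
# Properties of the function whose graph is the set of the initial values with limit `e`
-/

set_option autoImplicit false

open Filter Topology Set

namespace Pool.Agent.Helper10K9.BT

variable {α A B m M e : ℝ} {x : ℕ → ℝ} {g : ℝ → ℝ}

/-- `g u` is the second term of a solution with the first term `u` which converges to `e` -/
def IsG (α A B e : ℝ) (g : ℝ → ℝ) : Prop :=
  ∀ u, 0 ≤ u → 0 < g u ∧ Lim (orb α A B u (g u)) e e

lemma exists_g (p : Par α A B m M e) : ∃ g, IsG α A B e g := by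
  have h : ∀ u : ℝ, ∃ v : ℝ, 0 ≤ u → 0 < v ∧ Lim (orb α A B u v) e e := by
    intro u
    by_cases hu : 0 ≤ u
    · obtain ⟨v, hv⟩ := exists_w p hu
      exact ⟨v, fun _ => hv⟩
    · exact ⟨0, fun h => absurd h hu⟩
  choose g hg using h
  exact ⟨g, hg⟩

section

variable (p : Par α A B m M e) (hg : IsG α A B e g)

include p hg

lemma hB : 0 < B := by have := p.B1; linarith

lemma dom_pos {u v : ℝ} (hu : 0 ≤ u) (hv : 0 < v) : Dom A B u v :=
  ⟨hu, hv.le, by have := mul_pos (hB p hg) hv; have := p.A0; linarith⟩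

lemma sol_g {u : ℝ} (hu : 0 ≤ u) : Sol α A B (orb α A B u (g u)) :=
  orb_sol p.a0 (hB p hg) p.A0 (dom_pos p hg hu (hg u hu).1)

lemma char_P (s : Sol α A B x) (h : x 1 < g (x 0)) : Lim x M m :=
  above p (sol_g p hg (s.nn 0)) s le_rfl h.le (Or.inr h.ne') (hg _ (s.nn 0)).2

lemma char_N (s : Sol α A B x) (h : g (x 0) < x 1) : Lim x m M :=
  below p s (sol_g p hg (s.nn 0)) le_rfl h.le (Or.inr h.ne') (hg _ (s.nn 0)).2

lemma char_W (s : Sol α A B x) (h : x 1 = g (x 0)) : Lim x e e := by
  have h1 : x = orb α A B (x 0) (g (x 0)) := by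
    funext n
    rw [← h]
    exact sol_eq_orb s n
  rw [h1]
  exact (hg _ (s.nn 0)).2

lemma iff_W (s : Sol α A B x) : Lim x e e ↔ x 1 = g (x 0) := by
  refine ⟨fun h => ?_, char_W p hg s⟩
  rcases lt_trichotomy (x 1) (g (x 0)) with h1 | h1 | h1
  · have := (h.unique (char_P p hg s h1)).1
    have := p.eM
    linarith
  · exact h1
  · have := (h.unique (char_N p hg s h1)).1
    have := p.me
    linarith

lemma iff_P (s : Sol α A B x) : Lim x M m ↔ x 1 < g (x 0) := by
  refine ⟨fun h => ?_, char_P p hg s⟩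
  rcases lt_trichotomy (x 1) (g (x 0)) with h1 | h1 | h1
  · exact h1
  · have := (h.unique (char_W p hg s h1)).1
    have := p.eM
    linarith
  · have := (h.unique (char_N p hg s h1)).1
    have := p.mM
    linarith

lemma iff_N (s : Sol α A B x) : Lim x m M ↔ g (x 0) < x 1 := by
  refine ⟨fun h => ?_, char_N p hg s⟩
  rcases lt_trichotomy (x 1) (g (x 0)) with h1 | h1 | h1
  · have := (h.unique (char_P p hg s h1)).1
    have := p.mM
    linarith
  · have := (h.unique (char_W p hg s h1)).1
    have := p.me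
    linarith
  · exact h1

lemma g_e : g e = e := ((iff_W p hg (const_sol p)).1 const_lim).symm

lemma g_lt {u : ℝ} (hu : 0 ≤ u) (h : u < e) : u < g u ∧ g u < e := by
  have hgu := hg u hu
  constructor
  · rcases hu.eq_or_lt with h0 | h0
    · rw [← h0]
      rw [← h0] at hgu
      exact hgu.1
    · have s := orb_sol p.a0 (hB p hg) p.A0 (dom_pos p hg hu h0)
      exact (iff_P p hg s).1 (diag p s rfl h)
  · by_contra hc
    push Not at hc
    have h1 := below p (sol_g p hg hu) (const_sol p) h.le hc (Or.inl h.ne) const_lim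
    have := (hgu.2.unique h1).1
    have := p.me
    linarith

lemma g_gt {u : ℝ} (h : e < u) : e < g u ∧ g u < u := by
  have hu : 0 ≤ u := by have := p.e0; linarith
  have h0 : 0 < u := by have := p.e0; linarith
  have hgu := hg u hu
  constructor
  · by_contra hc
    push Not at hc
    have h1 := above p (const_sol p) (sol_g p hg hu) h.le hc (Or.inl h.ne) const_lim
    have := (hgu.2.unique h1).1
    have := p.eM
    linarith
  · have s := orb_sol p.a0 (hB p hg) p.A0 (dom_pos p hg hu h0)
    exact (iff_N p hg s).1 (diag2 p s rfl h)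

lemma g_mono : StrictMonoOn g (Ici 0) := by
  intro u hu v hv huv
  by_contra hc
  push Not at hc
  have h1 := anti p (sol_g p hg hu) (sol_g p hg hv) huv.le hc (hg u hu).2 (hg v hv).2
  exact huv.ne h1.1

lemma g_cont : ContinuousOn g (Ici 0) := by
  intro u₀ hu₀
  have hu₀' : (0 : ℝ) ≤ u₀ := hu₀
  have hg₀ := (hg u₀ hu₀).1
  have hmap : ∀ v : ℝ, Tendsto (fun w : ℝ => ((w, v) : ℝ × ℝ)) (𝓝[Ici 0] u₀) (𝓝 (u₀, v)) :=
    fun v => ((Continuous.prodMk_left v).tendsto u₀).mono_left nhdsWithin_le_nhds
  rw [ContinuousWithinAt, tendsto_order]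
  constructor
  · intro a ha
    set v := max a (g u₀ / 2) with hv
    have hv0 : 0 < v := lt_of_lt_of_le (half_pos hg₀) (le_max_right _ _)
    have hv1 : v < g u₀ := max_lt ha (half_lt_self hg₀)
    have hd := dom_pos p hg hu₀' hv0
    have h1 : Lim (orb α A B u₀ v) M m :=
      (iff_P p hg (orb_sol p.a0 (hB p hg) p.A0 hd)).2 hv1
    filter_upwards [(hmap v).eventually (open_P p hd h1), self_mem_nhdsWithin] with u h2 hu
    have hd2 := dom_pos p hg (u := u) hu hv0
    have h3 : v < g u := (iff_P p hg (orb_sol p.a0 (hB p hg) p.A0 hd2)).1 (h2 hd2)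
    exact lt_of_le_of_lt (le_max_left _ _) h3
  · intro a ha
    have hv0 : 0 < a := hg₀.trans ha
    have hd := dom_pos p hg hu₀' hv0
    have h1 : Lim (orb α A B u₀ a) m M :=
      (iff_N p hg (orb_sol p.a0 (hB p hg) p.A0 hd)).2 ha
    filter_upwards [(hmap a).eventually (open_N p hd h1), self_mem_nhdsWithin] with u h2 hu
    have hd2 := dom_pos p hg (u := u) hu hv0
    exact (iff_N p hg (orb_sol p.a0 (hB p hg) p.A0 hd2)).1 (h2 hd2)

lemma w_step (s : Sol α A B x) (h : Lim x e e) (n : ℕ) : x (n + 1) = g (x n) := by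
  have h1 : Lim (fun k => x (k + n)) e e :=
    lim_of_tendsto ((tendsto_add_atTop_iff_nat n).2 h.tendsto)
  have h2 := (iff_W p hg (s.shiftN n)).1 h1
  show x (n + 1) = g (x n)
  rw [zero_add] at h2
  rw [← h2, add_comm]

lemma g_eq {u : ℝ} (hu : 0 ≤ u) : g (g u) * (A + B * g u + u) = α + u := by
  have s := sol_g p hg hu
  have h1 := w_step p hg s (hg u hu).2 1
  have h2 := s.rc 0
  have h3 : orb α A B u (g u) 2 = g (g u) := h1
  show g (g u) * (A + B * g u + u) = α + u
  rw [← h3]
  exact h2

lemma w_mono (s : Sol α A B x) (h : Lim x e e) :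
    (Monotone x ∧ ∀ n, x n ≤ e) ∨ (Antitone x ∧ ∀ n, e ≤ x n) := by
  have hs := w_step p hg s h
  have hg' : ∀ u, 0 ≤ u → u ≤ e → u ≤ g u ∧ g u ≤ e := by
    intro u hu hue
    rcases hue.eq_or_lt with h1 | h1
    · rw [h1, g_e p hg]; exact ⟨le_rfl, le_rfl⟩
    · exact ⟨(g_lt p hg hu h1).1.le, (g_lt p hg hu h1).2.le⟩
  have hg'' : ∀ u, e ≤ u → e ≤ g u ∧ g u ≤ u := by
    intro u hue
    rcases hue.eq_or_lt with h1 | h1
    · rw [← h1, g_e p hg]; exact ⟨le_rfl, le_rfl⟩
    · exact ⟨(g_gt p hg h1).1.le, (g_gt p hg h1).2.le⟩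
  rcases le_total (x 0) e with h0 | h0
  · left
    have h1 : ∀ n, x n ≤ e := by
      intro n
      induction n with
      | zero => exact h0
      | succ n ih => rw [hs n]; exact (hg' _ (s.nn n) ih).2
    exact ⟨monotone_nat_of_le_succ fun n => by rw [hs n]; exact (hg' _ (s.nn n) (h1 n)).1, h1⟩
  · right
    have h1 : ∀ n, e ≤ x n := by
      intro n
      induction n with
      | zero => exact h0
      | succ n ih => rw [hs n]; exact (hg'' _ ih).1
    exact ⟨antitone_nat_of_succ_le fun n => by rw [hs n]; exact (hg'' _ (h1 n)).2, h1⟩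

/-- a solution whose terms (from the second one on) are on one side of `e` converges to `e` -/
lemma one_side (s : Sol α A B x) (h : (∀ n, x (n + 1) ≤ e) ∨ (∀ n, e ≤ x (n + 1))) :
    Lim x e e := by
  have hme := p.me
  have heM := p.eM
  rcases tri p s with h1 | h1 | h1
  · exact h1
  · exfalso
    have h2 := (lim_shift x m M).2 h1
    rcases h with h | h
    · have := le_of_tendsto' h2.2 fun k => h _
      linarith
    · have := ge_of_tendsto' h2.1 fun k => h _
      linarith
  · exfalso
    have h2 := (lim_shift x M m).2 h1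
    rcases h with h | h
    · have := le_of_tendsto' h2.1 fun k => h _
      linarith
    · have := ge_of_tendsto' h2.2 fun k => h _
      linarith

/-- the function is the only nondecreasing solution of the functional equation -/
lemma h_unique {h : ℝ → ℝ} (h0 : ∀ u, 0 ≤ u → 0 ≤ h u) (hm : MonotoneOn h (Ici 0))
    (he : ∀ u, 0 ≤ u → h (h u) * (A + B * h u + u) = α + u) {u : ℝ} (hu : 0 ≤ u) :
    h u = g u := by
  have ha := p.a0
  have hA := p.A0
  have hB' := hB p hg
  set x : ℕ → ℝ := fun n => h^[n] u with hx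
  have hs : ∀ n, x (n + 1) = h (x n) := fun n => Function.iterate_succ_apply' h n u
  have hnn : ∀ n, 0 ≤ x n := by
    intro n
    induction n with
    | zero => exact hu
    | succ n ih => rw [hs n]; exact h0 _ ih
  have hrc : ∀ n, x (n + 2) * (A + B * x (n + 1) + x n) = α + x n := by
    intro n
    rw [hs (n + 1), hs n]
    exact he _ (hnn n)
  have hsol : Sol α A B x := by
    refine ⟨hnn, fun n => ?_, hrc⟩
    have h1 := hrc n
    have h2 := hnn n
    have h3 := hnn (n + 1)
    have h4 : 0 ≤ A + B * x (n + 1) + x n := by nlinarith [mul_nonneg hB'.le h3]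
    rcases h4.eq_or_lt with h5 | h5
    · rw [← h5, mul_zero] at h1
      linarith
    · exact h5
  have hmono : Monotone x ∨ Antitone x := by
    rcases le_total (x 0) (x 1) with h1 | h1
    · left
      apply monotone_nat_of_le_succ
      intro n
      induction n with
      | zero => exact h1
      | succ n ih =>
        calc x (n + 1) = h (x n) := hs n
          _ ≤ h (x (n + 1)) := hm (hnn n) (hnn (n + 1)) ih
          _ = x (n + 1 + 1) := (hs (n + 1)).symm
    · right
      apply antitone_nat_of_succ_le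
      intro n
      induction n with
      | zero => exact h1
      | succ n ih =>
        calc x (n + 1 + 1) = h (x (n + 1)) := hs (n + 1)
          _ ≤ h (x n) := hm (hnn (n + 1)) (hnn n) ih
          _ = x (n + 1) := (hs n).symm
  have key : ∀ a b : ℝ, Lim x a b → a = b := by
    intro a b hl
    have h3 : Tendsto (fun k => x (2 * (k + 1))) atTop (𝓝 a) :=
      (tendsto_add_atTop_iff_nat (f := fun k => x (2 * k)) 1).2 hl.1
    rcases hmono with h4 | h4
    · exact le_antisymm (le_of_tendsto_of_tendsto' hl.1 hl.2 fun k => h4 (by omega))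
        (le_of_tendsto_of_tendsto' hl.2 h3 fun k => h4 (by omega))
    · exact le_antisymm (le_of_tendsto_of_tendsto' h3 hl.2 fun k => h4 (by omega))
        (le_of_tendsto_of_tendsto' hl.2 hl.1 fun k => h4 (by omega))
  have hmM := p.mM
  rcases tri p hsol with h1 | h1 | h1
  · exact (iff_W p hg hsol).1 h1
  · have := key _ _ h1
    linarith
  · have := key _ _ h1
    linarith

end

end Pool.Agent.Helper10K9.BT
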