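import Pool.Agent.Helper10K9.BT.Cmp

/-!
# The set of the initial values whose solutions converge to the equilibrium is a graph
-/

set_option autoImplicit false

open Filter Topology Set

namespace Pool.Agent.Helper10K9.BT

variable {α A B m M e : ℝ} {x y : ℕ → ℝ}

/-- the solution with the first two terms `u`, `v` -/
noncomputable def orb (α A B u v : ℝ) : ℕ → ℝ
  | 0 => u
  | 1 => v
  | n + 2 => (α + orb α A B u v n) / (A + B * orb α A B u v (n + 1) + orb α A B u v n)

/-- admissible initial values -/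
def Dom (A B u v : ℝ) : Prop := 0 ≤ u ∧ 0 ≤ v ∧ 0 < A + B * v + u

lemma orb_sol (ha : 0 < α) (hB : 0 < B) (hA : 0 ≤ A) {u v : ℝ} (h : Dom A B u v) :
    Sol α A B (orb α A B u v) := by
  have key : ∀ n, 0 ≤ orb α A B u v n ∧ 0 ≤ orb α A B u v (n + 1) ∧
      0 < A + B * orb α A B u v (n + 1) + orb α A B u v n := by
    intro n
    induction n with
    | zero => exact h
    | succ n ih =>
      obtain ⟨i1, i2, i3⟩ := ih
      have h2 : 0 < orb α A B u v (n + 2) := by
        rw [orb]
        exact div_pos (by linarith) i3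
      refine ⟨i2, h2.le, ?_⟩
      have : 0 < B * orb α A B u v (n + 1 + 1) := mul_pos hB h2
      linarith
  refine ⟨fun n => (key n).1, fun n => (key n).2.2, fun n => ?_⟩
  have h3 := (key n).2.2
  rw [orb]
  field_simp

lemma sol_eq_orb (s : Sol α A B x) : ∀ n, x n = orb α A B (x 0) (x 1) n := by
  have key : ∀ n, x n = orb α A B (x 0) (x 1) n ∧ x (n + 1) = orb α A B (x 0) (x 1) (n + 1) := by
    intro n
    induction n with
    | zero => exact ⟨rfl, rfl⟩
    | succ n ih =>
      refine ⟨ih.2, ?_⟩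
      show x (n + 2) = orb α A B (x 0) (x 1) (n + 2)
      rw [orb, ← ih.1, ← ih.2, eq_div_iff (s.dn n).ne']
      exact s.rc n
  exact fun n => (key n).1

lemma orb_cont (ha : 0 < α) (hB : 0 < B) (hA : 0 ≤ A) {u v : ℝ} (h : Dom A B u v) (n : ℕ) :
    ContinuousAt (fun p : ℝ × ℝ => orb α A B p.1 p.2 n) (u, v) := by
  have s := orb_sol ha hB hA h
  have key : ∀ n, ContinuousAt (fun p : ℝ × ℝ => orb α A B p.1 p.2 n) (u, v) ∧
      ContinuousAt (fun p : ℝ × ℝ => orb α A B p.1 p.2 (n + 1)) (u, v) := by
    intro n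
    induction n with
    | zero =>
      refine ⟨?_, ?_⟩
      · show ContinuousAt (fun p : ℝ × ℝ => p.1) (u, v)
        exact continuous_fst.continuousAt
      · show ContinuousAt (fun p : ℝ × ℝ => p.2) (u, v)
        exact continuous_snd.continuousAt
    | succ n ih =>
      refine ⟨ih.2, ?_⟩
      have h1 : (fun p : ℝ × ℝ => orb α A B p.1 p.2 (n + 1 + 1)) = fun p : ℝ × ℝ =>
          (α + orb α A B p.1 p.2 n) /
            (A + B * orb α A B p.1 p.2 (n + 1) + orb α A B p.1 p.2 n) := by
        funext p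
        rw [orb]
      rw [h1]
      refine ContinuousAt.div (continuousAt_const.add ih.1)
        ((continuousAt_const.add (continuousAt_const.mul ih.2)).add ih.1) ?_
      exact (s.dn n).ne'
  exact (key n).1

lemma lim_shift_two {a b : ℝ} (k : ℕ) : Lim (fun n => x (n + 2 * k)) a b ↔ Lim x a b := by
  unfold Lim
  rw [← tendsto_add_atTop_iff_nat (f := fun j => x (2 * j)) k,
    ← tendsto_add_atTop_iff_nat (f := fun j => x (2 * j + 1)) k]
  have h1 : (fun j => x (2 * j + 2 * k)) = fun j => x (2 * (j + k)) := by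
    funext j; congr 1; ring
  have h2 : (fun j => x (2 * j + 1 + 2 * k)) = fun j => x (2 * (j + k) + 1) := by
    funext j; congr 1; ring
  rw [h1, h2]

lemma open_P (p : Par α A B m M e) {u v : ℝ} (h : Dom A B u v)
    (hl : Lim (orb α A B u v) M m) :
    ∀ᶠ q : ℝ × ℝ in 𝓝 (u, v), Dom A B q.1 q.2 → Lim (orb α A B q.1 q.2) M m := by
  have hB : 0 < B := by have := p.B1; linarith
  obtain ⟨k, h1, h2⟩ := ((hl.1.eventually (lt_mem_nhds p.eM)).and
    (hl.2.eventually (gt_mem_nhds p.me))).exists
  filter_upwards [(orb_cont p.a0 hB p.A0 h (2 * k)).eventually (lt_mem_nhds h1),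
    (orb_cont p.a0 hB p.A0 h (2 * k + 1)).eventually (gt_mem_nhds h2)] with q q1 q2 hq
  have s := orb_sol p.a0 hB p.A0 hq
  have s2 := s.shiftN (2 * k)
  have h3 := above p (const_sol p) s2 (y := fun n => orb α A B q.1 q.2 (n + 2 * k))
    (by show e ≤ orb α A B q.1 q.2 (0 + 2 * k); rw [zero_add]; exact q1.le)
    (by show orb α A B q.1 q.2 (1 + 2 * k) ≤ e; rw [add_comm]; exact q2.le)
    (Or.inl (by show e ≠ orb α A B q.1 q.2 (0 + 2 * k); rw [zero_add]; exact q1.ne))
    const_lim
  exact (lim_shift_two k).1 h3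

lemma open_N (p : Par α A B m M e) {u v : ℝ} (h : Dom A B u v)
    (hl : Lim (orb α A B u v) m M) :
    ∀ᶠ q : ℝ × ℝ in 𝓝 (u, v), Dom A B q.1 q.2 → Lim (orb α A B q.1 q.2) m M := by
  have hB : 0 < B := by have := p.B1; linarith
  obtain ⟨k, h1, h2⟩ := ((hl.1.eventually (gt_mem_nhds p.me)).and
    (hl.2.eventually (lt_mem_nhds p.eM))).exists
  filter_upwards [(orb_cont p.a0 hB p.A0 h (2 * k)).eventually (gt_mem_nhds h1),
    (orb_cont p.a0 hB p.A0 h (2 * k + 1)).eventually (lt_mem_nhds h2)] with q q1 q2 hq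
  have s := orb_sol p.a0 hB p.A0 hq
  have s2 := s.shiftN (2 * k)
  have h3 := below p s2 (const_sol p) (x := fun n => orb α A B q.1 q.2 (n + 2 * k))
    (by show orb α A B q.1 q.2 (0 + 2 * k) ≤ e; rw [zero_add]; exact q1.le)
    (by show e ≤ orb α A B q.1 q.2 (1 + 2 * k); rw [add_comm]; exact q2.le)
    (Or.inl (by show orb α A B q.1 q.2 (0 + 2 * k) ≠ e; rw [zero_add]; exact q1.ne))
    const_lim
  exact (lim_shift_two k).1 h3

/-- below the equilibrium the diagonal belongs to the region of the limit `M, m` -/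
lemma diag (p : Par α A B m M e) (s : Sol α A B x) (h0 : x 1 = x 0) (h1 : x 0 < e) :
    Lim x M m := by
  have hB : 0 < B + 1 := by have := p.B1; linarith
  have h2 : x 1 < x 2 := by
    have r := s.rc 0
    have d := s.dn 0
    have n0 := s.nn 0
    have hq : 0 < (e - x 0) * ((B + 1) * (e + x 0) - (1 - A)) :=
      mul_pos (by linarith) (by have := p.k1; nlinarith [mul_nonneg hB.le n0])
    have he := p.eq
    rw [h0]
    simp only [zero_add] at r d
    rw [h0] at r d
    by_contra hc
    push Not at hc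
    nlinarith [mul_le_mul_of_nonneg_right hc d.le]
  have s1 := s.shift
  have hmM := p.mM
  rcases tri p s with h3 | h3 | h3
  · exfalso
    have h4 := anti p s1 s (x := fun n => x (n + 1)) h0.le h2.le ((lim_shift x e e).2 h3) h3
    have h5 : x 2 = x 1 := h4.2
    linarith
  · exact h3
  · exact up p s1 s (x := fun n => x (n + 1)) h0.le h2.le ((lim_shift x M m).2 h3)

/-- above the equilibrium the diagonal belongs to the region of the limit `m, M` -/
lemma diag2 (p : Par α A B m M e) (s : Sol α A B x) (h0 : x 1 = x 0) (h1 : e < x 0) :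
    Lim x m M := by
  have hB : 0 < B + 1 := by have := p.B1; linarith
  have h2 : x 2 < x 1 := by
    have r := s.rc 0
    have d := s.dn 0
    have n0 := s.nn 0
    have hq : 0 < (x 0 - e) * ((B + 1) * (e + x 0) - (1 - A)) :=
      mul_pos (by linarith) (by have := p.k1; nlinarith [mul_nonneg hB.le n0])
    have he := p.eq
    rw [h0]
    simp only [zero_add] at r d
    rw [h0] at r d
    by_contra hc
    push Not at hc
    nlinarith [mul_le_mul_of_nonneg_right hc d.le]
  have s1 := s.shift
  have hmM := p.mM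
  rcases tri p s with h3 | h3 | h3
  · exfalso
    have h4 := anti p s s1 (y := fun n => x (n + 1)) h0.ge h2.le h3 ((lim_shift x e e).2 h3)
    have h5 : x 1 = x 2 := h4.2
    linarith
  · exfalso
    have h4 := up p s s1 (y := fun n => x (n + 1)) h0.ge h2.le h3
    have h5 := (lim_shift x M m).1 h4
    have := (h3.unique h5).1
    linarith
  · exact h3

/-- for every `u` there is a solution with the first term `u` which converges to the equilibrium -/
lemma exists_w (p : Par α A B m M e) {u : ℝ} (hu : 0 ≤ u) :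
    ∃ v : ℝ, 0 < v ∧ Lim (orb α A B u v) e e := by
  have hB : 0 < B := by have := p.B1; linarith
  have hA := p.A0
  have ha := p.a0
  have he := p.e0
  have hdom : ∀ v, 0 < v → Dom A B u v := fun v hv =>
    ⟨hu, hv.le, by have := mul_pos hB hv; linarith⟩
  have hmap : ∀ v : ℝ, Tendsto (fun w : ℝ => ((u, w) : ℝ × ℝ)) (𝓝 v) (𝓝 (u, v)) := fun v =>
    (Continuous.prodMk_right u).continuousAt
  by_contra hno
  push Not at hno
  set U : Set ℝ := {v | 0 < v ∧ Lim (orb α A B u v) M m} with hU
  set V : Set ℝ := {v | 0 < v ∧ Lim (orb α A B u v) m M} with hV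
  have oU : IsOpen U := by
    rw [isOpen_iff_mem_nhds]
    rintro v ⟨h1, h2⟩
    filter_upwards [(hmap v).eventually (open_P p (hdom v h1) h2), lt_mem_nhds h1] with w w1 w2
    exact ⟨w2, w1 (hdom w w2)⟩
  have oV : IsOpen V := by
    rw [isOpen_iff_mem_nhds]
    rintro v ⟨h1, h2⟩
    filter_upwards [(hmap v).eventually (open_N p (hdom v h1) h2), lt_mem_nhds h1] with w w1 w2
    exact ⟨w2, w1 (hdom w w2)⟩
  have nU : (Ioi (0 : ℝ) ∩ U).Nonempty := by
    rcases lt_or_ge u e with h1 | h1
    · rcases hu.eq_or_lt with h2 | h2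
      · rcases hA.eq_or_lt with h3 | h3
        · refine ⟨α / B, div_pos ha hB, div_pos ha hB, ?_⟩
          apply bad p (orb_sol ha hB hA (hdom _ (div_pos ha hB)))
          show A + B * (α / B) ≤ α
          rw [← h3]
          field_simp
          simp
        · -- the point `(0, 0)`
          have hd : Dom A B u 0 := ⟨hu, le_rfl, by rw [← h2]; linarith⟩
          have s := orb_sol ha hB hA hd
          have h4 : Lim (orb α A B u 0) M m := diag p s h2 (by
            show u < e
            exact h1)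
          have h5 := (hmap 0).eventually (open_P p hd h4)
          obtain ⟨δ, hδ, h6⟩ := Metric.eventually_nhds_iff.1 h5
          refine ⟨δ / 2, half_pos hδ, half_pos hδ, ?_⟩
          apply h6 (by rw [Real.dist_eq, sub_zero, abs_of_pos (half_pos hδ)]; linarith)
          exact hdom _ (half_pos hδ)
      · exact ⟨u, h2, h2, diag p (orb_sol ha hB hA (hdom u h2)) rfl h1⟩
    · refine ⟨e / 2, half_pos he, half_pos he, ?_⟩
      exact above p (const_sol p) (orb_sol ha hB hA (hdom _ (half_pos he)))
        h1 (by show e / 2 ≤ e; linarith) (Or.inr (by show e ≠ e / 2; linarith)) const_lim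
  have nV : (Ioi (0 : ℝ) ∩ V).Nonempty := by
    rcases le_or_gt u e with h1 | h1
    · have h2 : 0 < e + 1 := by linarith
      refine ⟨e + 1, h2, h2, ?_⟩
      exact below p (orb_sol ha hB hA (hdom _ h2)) (const_sol p)
        h1 (by show e ≤ e + 1; linarith) (Or.inr (by show e + 1 ≠ e; linarith)) const_lim
    · have h2 : 0 < u := by linarith
      exact ⟨u, h2, h2, diag2 p (orb_sol ha hB hA (hdom u h2)) rfl h1⟩
  obtain ⟨v, hv, h1, h2⟩ := isPreconnected_Ioi (a := (0 : ℝ)) U V oU oV (fun v hv => by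
    rcases tri p (orb_sol ha hB hA (hdom v hv)) with h3 | h3 | h3
    · exact absurd h3 (hno v hv)
    · exact Or.inl ⟨hv, h3⟩
    · exact Or.inr ⟨hv, h3⟩) nU nV
  have h3 := (h1.2.unique h2.2).1
  have := p.mM
  linarith

end Pool.Agent.Helper10K9.BT
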